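import Pool.Agent.H15.G.R_seed8.TH713.MN.Lead
import Pool.Agent.H15.G.R_seed8.TH236.MN.Lead

/-!
# MN-11: leading coefficient of a polynomial at several nodes (written by helper713)
-/

set_option autoImplicit false

namespace Pool.Agent.TH713.MN

open Pool.Agent.TH745.MN Pool.Agent.TH603.EL Pool.Agent.TH603.EL.Scal2 Pool.Agent.TH793.NG
  Pool.Agent.TH176.Nag Pool.Agent.TH603.Sur

theorem nod_lead {F : Type} [Field F] [CharZero F] {β : Type} [Fintype β] [DecidableEq β]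
    {R : Polynomial (HK F)} {Rb : Polynomial F} (hodd : Odd Rb.natDegree) {M : ℕ}
    (hRb : Rb.natDegree + 1 ≤ 2 * M) {κ : ℝ} {a b s : β → ℝ}
    {c : β → F} (hc : Function.Injective c) {xx yy U : β → HR F}
    (hT : ∀ i, Tb R Rb (a i) (b i) (s i) κ (c i) (xx i) (yy i) (U i)) {ω : ℕ → ℝ}
    (hω : Thr a b ω) {D : ℕ} (hs : ∀ i, ∀ W ≤ D, ω W ≤ s i) {p : PXY F} (hp : p ≠ 0)
    (hg : Gd R M D p) :
    ∃ n : ℝ, (∃ i k j, cf (EV (xx i) (yy i) p) n k j ≠ 0) ∧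
      ∀ i k j, cf (EV (xx i) (yy i) p) n k j ≠ 0 → (k, j) ∈ SS M D (a i) (b i) ω :=
  nod_lead_of hRb hT (fun _ _ h1 h2 h3 A B hne hA hB =>
    Pool.Agent.TH236.MN.g_lead hodd hc hT h1 h2 h3 A B hne hA hB) hω hs hp hg

end Pool.Agent.TH713.MN
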